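import Mathlib

set_option autoImplicit false

namespace Pool.Agent.Results.MP_fa7ade_co.SixVertices

/-- Out-neighbours of the six vertices. -/
def nb : Fin 6 → List (Fin 6) :=
  ![[1, 2, 3], [0, 3, 4], [3, 4, 5], [0, 1, 5], [0, 2, 5], [1, 2, 4]]

/-- Successor maps of the four Hamiltonian cycles. -/
def sc : Fin 4 → Fin 6 → Fin 6 :=
  ![![1, 3, 4, 5, 0, 2], ![1, 4, 3, 0, 5, 2], ![2, 4, 3, 5, 0, 1], ![2, 3, 4, 0, 5, 1]]

theorem key : ∀ a0 : Fin 6, ∀ a1 ∈ nb a0, ∀ a2 ∈ nb a1, ∀ a3 ∈ nb a2, ∀ a4 ∈ nb a3,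
    ∀ a5 ∈ nb a4, a0 ∈ nb a5 → [a0, a1, a2, a3, a4, a5].Nodup →
    ∃ k : Fin 4, sc k a0 = a1 ∧ sc k a1 = a2 ∧ sc k a2 = a3 ∧ sc k a3 = a4 ∧ sc k a4 = a5 ∧
      sc k a5 = a0 := by
  decide +kernel

theorem share : ∀ k l : Fin 4, ∃ v, sc k v = sc l v := by decide

theorem succ_of (c : Fin 6 → Fin 6) (hc : Function.Injective c)
    (h : ∀ i, c (i + 1) ∈ nb (c i)) : ∃ k : Fin 4, ∀ i, sc k (c i) = c (i + 1) := by
  have hn : [c 0, c 1, c 2, c 3, c 4, c 5].Nodup := by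
    have : [c 0, c 1, c 2, c 3, c 4, c 5] = ([0, 1, 2, 3, 4, 5] : List (Fin 6)).map c := rfl
    rw [this]
    exact List.Nodup.map hc (by decide)
  obtain ⟨k, h0, h1, h2, h3, h4, h5⟩ :=
    key (c 0) (c 1) (h 0) (c 2) (h 1) (c 3) (h 2) (c 4) (h 3) (c 5) (h 4) (h 5) hn
  refine ⟨k, fun i => ?_⟩
  fin_cases i
  · exact h0
  · exact h1
  · exact h2
  · exact h3
  · exact h4
  · exact h5

/-- A loopless digraph on 6 vertices with all in- and out-degrees at least `6 / 2` in which any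
two directed Hamiltonian cycles (cyclic orderings `c 0 → c 1 → ⋯ → c 5 → c 0` of all the
vertices along arcs) have an arc in common. -/
theorem result :
    ∃ D : Fin 6 → Fin 6 → Prop, (∀ v, ¬ D v v) ∧
      (∀ v, 6 ≤ 2 * {w | D v w}.ncard) ∧ (∀ v, 6 ≤ 2 * {w | D w v}.ncard) ∧
      ∀ c c' : Fin 6 → Fin 6, Function.Bijective c → Function.Bijective c' →
        (∀ i, D (c i) (c (i + 1))) → (∀ i, D (c' i) (c' (i + 1))) →
        ∃ i j, c i = c' j ∧ c (i + 1) = c' (j + 1) := by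
  refine ⟨fun v w => w ∈ nb v, by decide, ?_, ?_, ?_⟩
  · intro v
    have : {w | w ∈ nb v} = ((Finset.univ.filter fun w => w ∈ nb v : Finset (Fin 6)) : Set (Fin 6)) := by
      ext w; simp
    rw [this, Set.ncard_coe_finset]
    clear this; revert v; decide
  · intro v
    have : {w | v ∈ nb w} = ((Finset.univ.filter fun w => v ∈ nb w : Finset (Fin 6)) : Set (Fin 6)) := by
      ext w; simp
    rw [this, Set.ncard_coe_finset]
    clear this; revert v; decide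
  · intro c c' hc hc' h h'
    obtain ⟨k, hk⟩ := succ_of c hc.1 h
    obtain ⟨l, hl⟩ := succ_of c' hc'.1 h'
    obtain ⟨v, hv⟩ := share k l
    obtain ⟨i, hi⟩ := hc.2 v
    obtain ⟨j, hj⟩ := hc'.2 v
    refine ⟨i, j, hi.trans hj.symm, ?_⟩
    rw [← hk i, ← hl j, hi, hj, hv]

end Pool.Agent.Results.MP_fa7ade_co.SixVertices
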